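import Pool.Agent.R406.WSExample

/-! # No stable letter distribution for the word `ABB` in dimension two -/

namespace Pool.Agent.Results.MP_f54ac9_co.NoStableDistribution

open Pool.Agent.R406.WS

/-- For two different letters `A` and `B` of an arbitrary alphabet, the word `ABB` has
`C_2(ABB) = 2`, and there is no letter distribution `h` such that, for every `δ ≥ 0` and every
two-dimensional grid `Γ` with `c_2(ABB, Γ) ≥ C_2(ABB) (1 - δ)`, the total variation distance of
`h_Γ` and `h` is at most `δ`. -/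
theorem result {α : Type*} (A B : α) (hAB : A ≠ B) :
    maxConc 2 [A, B, B] = 2 ∧
    ¬ ∃ h : α → ℝ, IsLetterDistribution h ∧ ∀ δ : ℝ, 0 ≤ δ → ∀ (n : Fin 2 → ℕ)
      [∀ i, NeZero (n i)] (Γ : Box n → α),
      maxConc 2 [A, B, B] * (1 - δ) ≤ conc [A, B, B] Γ → tv (letterDist Γ) h ≤ δ :=
  ⟨maxConc_eq hAB, main hAB⟩

end Pool.Agent.Results.MP_f54ac9_co.NoStableDistribution
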